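import Mathlib
import Pool.Agent.H6.CF5

set_option autoImplicit false

open Filter Set

namespace Pool.Agent.Results.MP_590852_nt.SumsetIsInterval

/-- `G`: the irrational numbers `g` with `0 < g < 1` whose regular continued fraction
`[a_1, a_2, ...]` (Mathlib's `GenContFract.of g`: all partial numerators are `1`, the partial
denominators are the partial quotients `a 0, a 1, ...`) has partial quotients tending to
infinity. -/
def G : Set ℝ :=
  {g | 0 < g ∧ g < 1 ∧ Irrational g ∧ ∃ a : ℕ → ℕ, Tendsto a atTop atTop ∧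
    ∀ n : ℕ, (GenContFract.of g).s.get? n = some ⟨1, (a n : ℝ)⟩}

/-- `r` is the sequence of the complete quotients with digits `a`. -/
def CQ (a : ℕ → ℕ) (r : ℕ → ℝ) : Prop :=
  ∀ n, 0 < r n ∧ r n < 1 ∧ (r n)⁻¹ = (a n : ℝ) + r (n + 1)

lemma CQ.fract_int_add {a : ℕ → ℕ} {r : ℕ → ℝ} (h : CQ a r) (k : ℤ) (n : ℕ) :
    Int.fract ((k : ℝ) + r n) = r n := by
  rw [Int.fract_intCast_add]
  exact Int.fract_eq_self.mpr ⟨(h n).1.le, (h n).2.1⟩

lemma CQ.shift {a : ℕ → ℕ} {r : ℕ → ℝ} (h : CQ a r) (m : ℕ) :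
    CQ (fun n => a (n + m)) (fun n => r (n + m)) := by
  intro n
  have := h (n + m)
  refine ⟨this.1, this.2.1, ?_⟩
  have e : n + 1 + m = n + m + 1 := by omega
  simp only [e]
  exact this.2.2

lemma CQ.get {n : ℕ} : ∀ {a : ℕ → ℕ} {r : ℕ → ℝ}, CQ a r → ∀ k : ℤ,
    (GenContFract.of ((k : ℝ) + r 0)).s.get? n = some ⟨1, (a n : ℝ)⟩ := by
  induction n with
  | zero =>
    intro a r h k
    have hf := h.fract_int_add k 0
    have hne : Int.fract ((k : ℝ) + r 0) ≠ 0 := by rw [hf]; exact (h 0).1.ne'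
    have h1 := GenContFract.of_s_head hne
    rw [hf, (h 0).2.2] at h1
    have h2 : ⌊(a 0 : ℝ) + r (0 + 1)⌋ = (a 0 : ℤ) := by
      rw [Int.floor_natCast_add, Int.floor_eq_zero_iff.mpr ⟨(h 1).1.le, (h 1).2.1⟩, add_zero]
    rw [h2] at h1
    change (GenContFract.of ((k : ℝ) + r 0)).s.head = _
    rw [h1]
    simp
  | succ n ih =>
    intro a r h k
    rw [GenContFract.of_s_succ, h.fract_int_add k 0, (h 0).2.2]
    have := ih (h.shift 1) (a 0 : ℤ)
    simpa using this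

lemma CQ.mem_G {a : ℕ → ℕ} {r : ℕ → ℝ} (h : CQ a r) (ha : Tendsto a atTop atTop) : r 0 ∈ G := by
  have hg : ∀ n : ℕ, (GenContFract.of (r 0)).s.get? n = some ⟨1, (a n : ℝ)⟩ := by
    intro n
    have := h.get (n := n) 0
    simpa using this
  refine ⟨(h 0).1, (h 0).2.1, ?_, a, ha, hg⟩
  intro hq
  obtain ⟨q, hq⟩ := hq
  have ht : (GenContFract.of (r 0)).Terminates :=
    (GenContFract.terminates_iff_rat (r 0)).mpr ⟨q, hq.symm⟩
  obtain ⟨n, hn⟩ := ht
  have h1 : (GenContFract.of (r 0)).s.get? n = none := hn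
  rw [hg n] at h1
  exact absurd h1 (by simp)

/-- `g = r 0` for complete quotients `r` with digits tending to infinity. -/
def Good (g : ℝ) : Prop :=
  ∃ (a : ℕ → ℕ) (r : ℕ → ℝ), CQ a r ∧ Tendsto a atTop atTop ∧ r 0 = g

lemma Good.mem {g : ℝ} (h : Good g) : g ∈ G := by
  obtain ⟨a, r, h1, h2, h3⟩ := h
  rw [← h3]
  exact h1.mem_G h2

lemma good_of_gauss {g : ℝ} (hg : g ∈ Ioo (0:ℝ) 1)
    (ht : Tendsto (fun n : ℕ => ⌊1 / (Pool.Agent.H6.gm^[n] g)⌋) atTop atTop) : Good g := by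
  set r : ℕ → ℝ := fun n => Pool.Agent.H6.gm^[n] g with hr
  have hstep : ∀ n, r (n + 1) = Int.fract (1 / r n) := by
    intro n
    simp only [hr]
    rw [Function.iterate_succ_apply']
    rfl
  have hlt : ∀ n, 0 ≤ r n ∧ r n < 1 := by
    intro n
    cases n with
    | zero => exact ⟨hg.1.le, hg.2⟩
    | succ n => rw [hstep]; exact ⟨Int.fract_nonneg _, Int.fract_lt_one _⟩
  have hz : ∀ n, r n = 0 → ∀ m, r (n + m) = 0 := by
    intro n h0 m
    induction m with
    | zero => exact h0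
    | succ m ih =>
      rw [← add_assoc, hstep, ih]
      simp
  have hne : ∀ n, r n ≠ 0 := by
    intro n h0
    have h1 := (tendsto_atTop.mp ht 1)
    rw [eventually_atTop] at h1
    obtain ⟨N, hN⟩ := h1
    have h2 := hN (n + N) (by omega)
    have h3 := hz n h0 N
    simp only [hr] at h3
    rw [h3] at h2
    simp at h2
  have hpos : ∀ n, 0 < r n := fun n => lt_of_le_of_ne (hlt n).1 (hne n).symm
  have hfl : ∀ n, 0 ≤ ⌊1 / r n⌋ := fun n => Int.floor_nonneg.mpr (by have := hpos n; positivity)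
  refine ⟨fun n => ⌊1 / r n⌋.toNat, r, ?_, ?_, rfl⟩
  · intro n
    refine ⟨hpos n, (hlt n).2, ?_⟩
    rw [hstep]
    have h1 : ((⌊1 / r n⌋.toNat : ℕ) : ℝ) = (⌊1 / r n⌋ : ℝ) := by
      exact_mod_cast congrArg (fun z : ℤ => (z : ℝ)) (Int.toNat_of_nonneg (hfl n))
    rw [h1, Int.floor_add_fract, one_div]
  · rw [tendsto_atTop] at ht ⊢
    intro b
    filter_upwards [ht (b : ℤ)] with n hn
    simp only [hr]
    omega

/-- The set `G` is symmetric under `g ↦ 1 - g`. -/
lemma Good.one_sub {g : ℝ} (h : Good g) : Good (1 - g) := by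
  obtain ⟨a, r, h1, h2, h3⟩ := h
  have h0 := h1 0
  have h01 := h1 1
  have hr0 : r 0 = ((a 0 : ℝ) + r 1)⁻¹ := by
    have := h0.2.2
    rw [← inv_inv (r 0), this]
  by_cases ha : 2 ≤ a 0
  · -- digits `1, a 0 - 1, a 1, ...`
    have ha' : (2:ℝ) ≤ a 0 := by exact_mod_cast ha
    have hc : ((a 0 - 1 : ℕ) : ℝ) = (a 0 : ℝ) - 1 := by
      rw [Nat.cast_sub (by omega)]; simp
    have hr1 := h01.1
    have hr1' := h01.2.1
    have hd : 0 < (a 0 : ℝ) - 1 + r 1 := by linarith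
    have hd2 : 0 < (a 0 : ℝ) + r 1 := by linarith
    refine ⟨fun n => Nat.casesOn n 1 (fun n => Nat.casesOn n (a 0 - 1) (fun n => a (n + 1))),
      fun n => Nat.casesOn n (1 - g) (fun n => Nat.casesOn n (((a 0 : ℝ) - 1 + r 1)⁻¹)
        (fun n => r (n + 1))), ?_, ?_, rfl⟩
    · intro n
      rcases n with _ | _ | n
      · have e1 : 1 - g = ((a 0 : ℝ) - 1 + r 1) / ((a 0 : ℝ) + r 1) := by
          rw [← h3, hr0]; field_simp; ring
        refine ⟨?_, ?_, ?_⟩
        · show 0 < 1 - g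
          rw [e1]; positivity
        · show 1 - g < 1
          rw [e1, div_lt_one hd2]; linarith
        · show (1 - g)⁻¹ = ((1 : ℕ) : ℝ) + ((a 0 : ℝ) - 1 + r 1)⁻¹
          rw [e1]; push_cast; field_simp; ring
      · refine ⟨?_, ?_, ?_⟩
        · show 0 < ((a 0 : ℝ) - 1 + r 1)⁻¹
          positivity
        · show ((a 0 : ℝ) - 1 + r 1)⁻¹ < 1
          exact inv_lt_one_of_one_lt₀ (by linarith)
        · show (((a 0 : ℝ) - 1 + r 1)⁻¹)⁻¹ = ((a 0 - 1 : ℕ) : ℝ) + r (0 + 1)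
          rw [inv_inv, hc]
      · exact h1 (n + 1)
    · rw [tendsto_atTop] at h2 ⊢
      intro b
      have := h2 b
      rw [eventually_atTop] at this ⊢
      obtain ⟨N, hN⟩ := this
      refine ⟨N + 2, fun n hn => ?_⟩
      obtain ⟨m, rfl⟩ : ∃ m, n = m + 2 := ⟨n - 2, by omega⟩
      exact hN (m + 1) (by omega)
  · -- digits `a 1 + 1, a 2, ...`
    have ha1 : a 0 = 1 := by
      have h4 : 1 < (r 0)⁻¹ := (one_lt_inv₀ h0.1).mpr h0.2.1
      rw [h0.2.2] at h4
      have h5 : (0:ℝ) < a 0 := by have := h01.2.1; simp only [zero_add] at h4; linarith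
      have h6 : 0 < a 0 := by exact_mod_cast h5
      omega
    have hr1 := h01.1
    have hr1' := h01.2.1
    have h02 := h1 2
    have e0 : r 1 = ((a 1 : ℝ) + r 2)⁻¹ := by
      have := h01.2.2
      rw [← inv_inv (r 1), this]
    have hp2 : 0 < (a 1 : ℝ) + r 2 := by have := h02.1; positivity
    have e1 : 1 - g = ((a 1 : ℝ) + 1 + r 2)⁻¹ := by
      have hs : ∀ s : ℝ, 0 < s → 1 - (1 + s⁻¹)⁻¹ = (s + 1)⁻¹ := by
        intro s hs
        have : 0 < s + 1 := by linarith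
        have h7 : 1 + s⁻¹ = (s + 1) / s := by field_simp
        rw [h7, inv_div]
        field_simp
        ring
      have h8 : (a 1 : ℝ) + 1 + r 2 = (a 1 : ℝ) + r 2 + 1 := by ring
      rw [← h3, hr0, ha1, e0, h8, ← hs _ hp2]; push_cast; ring
    have hd : 0 < (a 1 : ℝ) + 1 + r 2 := by linarith
    refine ⟨fun n => Nat.casesOn n (a 1 + 1) (fun n => a (n + 2)),
      fun n => Nat.casesOn n (1 - g) (fun n => r (n + 2)), ?_, ?_, rfl⟩
    · intro n
      rcases n with _ | n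
      · refine ⟨?_, ?_, ?_⟩
        · show 0 < 1 - g
          rw [e1]; positivity
        · show 1 - g < 1
          rw [e1]
          refine inv_lt_one_of_one_lt₀ ?_
          have := h02.1
          have : (0:ℝ) ≤ a 1 := Nat.cast_nonneg _
          linarith
        · show (1 - g)⁻¹ = ((a 1 + 1 : ℕ) : ℝ) + r (0 + 2)
          rw [e1, inv_inv]; push_cast; ring
      · exact h1 (n + 2)
    · rw [tendsto_atTop] at h2 ⊢
      intro b
      have := h2 b
      rw [eventually_atTop] at this ⊢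
      obtain ⟨N, hN⟩ := this
      refine ⟨N + 1, fun n hn => ?_⟩
      obtain ⟨m, rfl⟩ : ∃ m, n = m + 1 := ⟨n - 1, by omega⟩
      exact hN (m + 2) (by omega)

/-- `G + G = (0, 2)`: a real number is a sum of two elements of `G` exactly when it lies strictly
between `0` and `2`. -/
theorem result :
    ∀ x : ℝ, (∃ g₁ ∈ G, ∃ g₂ ∈ G, x = g₁ + g₂) ↔ 0 < x ∧ x < 2 := by
  intro x
  constructor
  · rintro ⟨g₁, h1, g₂, h2, rfl⟩
    have := h1.1
    have := h1.2.1
    have := h2.1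
    have := h2.2.1
    constructor <;> linarith
  · rintro ⟨h0, h2⟩
    by_cases h1 : x ≤ 1
    · obtain ⟨g₁, g₂, a, b, c, d, e⟩ := Pool.Agent.H6.main_thm x h0 h1
      exact ⟨g₁, (good_of_gauss a c).mem, g₂, (good_of_gauss b d).mem, e⟩
    · push Not at h1
      obtain ⟨g₁, g₂, a, b, c, d, e⟩ := Pool.Agent.H6.main_thm (2 - x) (by linarith) (by linarith)
      exact ⟨1 - g₁, (good_of_gauss a c).one_sub.mem, 1 - g₂, (good_of_gauss b d).one_sub.mem,
        by linarith⟩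

end Pool.Agent.Results.MP_590852_nt.SumsetIsInterval
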